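import Pool.Agent.H92.KST.Targets

/-!
# Board kst_modules, module FIN: finiteness
-/

set_option autoImplicit false

namespace Pool.Agent.H39.KST

open Pool.Agent.H92.KST

universe u

theorem finite_one {R : Type u} [CommRing R] [IsDomain R] [IsNoetherianRing R] (b : R)
    (hb : b ≠ 0) : {P : Ideal R | P.IsPrime ∧ P.height = 1 ∧ b ∈ P}.Finite := by
  refine (Ideal.finite_minimalPrimes_of_isNoetherianRing R (Ideal.span {b})).subset ?_
  rintro P ⟨hP, hP1, hbP⟩
  have hle : Ideal.span {b} ≤ P := (Ideal.span_singleton_le_iff_mem P).2 hbP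
  refine Ideal.mem_minimalPrimes_of_height_le hle ?_
  rw [hP1]
  exact Ideal.one_le_height_span_singleton_of_mem_nonZeroDivisors (mem_nonZeroDivisors_of_ne_zero hb)

theorem finite_pts {R : Type u} [CommRing R] [IsDomain R] [IsNoetherianRing R] (S : Sit R)
    (I : Ideal R) (h2 : ∀ J : Ideal R, J.IsPrime → I ≤ J → 2 ≤ J.height) :
    {y | ∃ q ∈ S.T y, I ≤ q}.Finite := by
  have hI : (2 : ℕ∞) ≤ I.height := by
    rw [Ideal.height_eq_inf_minimalPrimes]
    exact le_iInf₂ fun J hJ => h2 J hJ.isPrime hJ.le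
  refine (Set.Finite.biUnion (Ideal.finite_minimalPrimes_of_isNoetherianRing R I)
    (t := fun q => {y | q ∈ S.T y}) ?_).subset ?_
  · intro q _
    refine Set.Subsingleton.finite ?_
    intro y hy y' hy'
    by_contra hne
    exact Set.disjoint_left.1 (S.dj y y' hne) hy hy'
  · rintro y ⟨q, hq, hIq⟩
    have hqp := S.pr y q hq
    refine Set.mem_biUnion (x := q) ?_ hq
    refine Ideal.mem_minimalPrimes_of_height_le hIq ?_
    rw [S.ht y q hq]
    exact hI

theorem pf_FIN : T_FIN.{u} := by
  intro R F _ _ _ _ _ _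
  refine ⟨fun b hb => finite_one b hb, ?_, ?_⟩
  · intro f hf
    obtain ⟨a, b, hb, rfl⟩ := IsFractionRing.div_surjective (A := R) f
    have hb0 : b ≠ 0 := nonZeroDivisors.ne_zero hb
    have hbF : algebraMap R F b ≠ 0 := by
      intro h
      exact hb0 ((IsFractionRing.injective R F) (by rw [h, map_zero]))
    have haF : algebraMap R F a ≠ 0 := by
      intro h
      apply hf
      rw [h, zero_div]
    have ha0 : a ≠ 0 := by
      rintro rfl
      exact haF (map_zero _)
    refine ((finite_one a ha0).union (finite_one b hb0)).subset ?_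
    rintro P ⟨hP, hP1, hU⟩
    by_contra hcon
    apply hU
    have haP : a ∉ P := fun h => hcon (Or.inl ⟨hP, hP1, h⟩)
    have hbP : b ∉ P := fun h => hcon (Or.inr ⟨hP, hP1, h⟩)
    refine ⟨hf, ⟨b, a, hb0, ?_, ?_⟩, ⟨a, b, ha0, ?_, ?_⟩⟩
    · intro q hq
      rw [Set.mem_singleton_iff] at hq
      rw [hq]
      exact hbP
    · rw [mul_div_cancel₀ _ hbF]
    · intro q hq
      rw [Set.mem_singleton_iff] at hq
      rw [hq]
      exact haP
    · rw [inv_div, mul_div_cancel₀ _ haF]
  · intro S
    refine ⟨finite_one S.p S.p0, ?_, ?_⟩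
    · intro b _ hbS
      have hle : ∀ q : Ideal R, b ∈ q → S.p ∈ q → Ideal.span {b, S.p} ≤ q := by
        intro q h1 h2
        rw [Ideal.span_le]
        rintro x (rfl | hx)
        · exact h1
        · rw [Set.mem_singleton_iff] at hx
          rw [hx]
          exact h2
      refine (finite_pts S (Ideal.span {b, S.p}) ?_).subset ?_
      · intro J hJ hIJ
        have hbJ : b ∈ J := hIJ (Ideal.subset_span (by simp))
        have hpJ : S.p ∈ J := hIJ (Ideal.subset_span (by simp))
        have h0 : J.height ≠ 0 := by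
          intro h
          rw [Ideal.height_eq_zero_iff_eq_bot] at h
          rw [h, Ideal.mem_bot] at hpJ
          exact S.p0 hpJ
        have h1 : J.height ≠ 1 := fun h => hbS J ⟨hJ, h, hpJ⟩ hbJ
        have h3 : 1 < J.height := lt_of_le_of_ne (Order.one_le_iff_ne_zero.2 h0) (Ne.symm h1)
        have h4 := Order.add_one_le_of_lt h3
        rwa [one_add_one_eq_two] at h4
      · rintro y ⟨q, hq, hbq⟩
        exact ⟨q, hq, hle q hbq (S.mem y q hq)⟩
    · rintro P ⟨hP, hP1, hpP⟩
      refine (finite_pts S (P ⊔ Ideal.span {S.p}) ?_).subset ?_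
      · intro J hJ hIJ
        have hPJ : P ≤ J := le_sup_left.trans hIJ
        have hpJ : S.p ∈ J := hIJ (Ideal.mem_sup_right (Ideal.mem_span_singleton_self _))
        have hlt : P < J := lt_of_le_of_ne hPJ (fun h => hpP (by rw [h]; exact hpJ))
        have h4 := Ideal.height_add_one_le_of_lt_of_isPrime hlt
        rwa [hP1, one_add_one_eq_two] at h4
      · rintro y ⟨q, hq, hPq⟩
        exact ⟨q, hq, sup_le hPq ((Ideal.span_singleton_le_iff_mem q).2 (S.mem y q hq))⟩

end Pool.Agent.H39.KST
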